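import Pool.Agent.H84.ARB.U

/-!
# Mixed arborescences (MP_1cda34), fractional orientations (Frank's theorem)
-/

set_option autoImplicit false

open Finset

namespace Pool.Agent.H84.ARB

section

variable {V E A : Type} [DecidableEq V] [Fintype E] [DecidableEq E] [Fintype A]
variable (p q : E → V) (t h : A → V)

/-- The number of elements inside `X`. -/
def ii (X : Finset V) : ℝ :=
  ∑ e, (if p e ∈ X ∧ q e ∈ X then 1 else 0) + ∑ a, if t a ∈ X ∧ h a ∈ X then 1 else 0

/-- The contribution of an edge, oriented (`c` = the part with head `q`) or not. -/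
def ce (S : Finset E) (x : E → ℝ) (e : E) (U : Finset V) : ℝ :=
  if e ∈ S then x e * (if q e ∈ U then 1 else 0) + (1 - x e) * (if p e ∈ U then 1 else 0)
  else if p e ∈ U ∨ q e ∈ U then 1 else 0

/-- The number of elements that may enter or are inside `U`. -/
def eS (S : Finset E) (x : E → ℝ) (U : Finset V) : ℝ :=
  ∑ a, (if h a ∈ U then 1 else 0) + ∑ e, ce p q S x e U

theorem ii_super (X Y : Finset V) : ii p q t h X + ii p q t h Y ≤
    ii p q t h (X ∪ Y) + ii p q t h (X ∩ Y) := by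
  unfold ii
  have h1 : ∀ u v : V, ((if u ∈ X ∧ v ∈ X then 1 else 0) : ℝ) + (if u ∈ Y ∧ v ∈ Y then 1 else 0) ≤
      (if u ∈ X ∪ Y ∧ v ∈ X ∪ Y then 1 else 0) + (if u ∈ X ∩ Y ∧ v ∈ X ∩ Y then 1 else 0) := by
    intro u v
    by_cases a : u ∈ X <;> by_cases b : v ∈ X <;> by_cases c : u ∈ Y <;> by_cases d : v ∈ Y <;>
      simp [a, b, c, d]
  have h2 := sum_le_sum fun (e : E) (_ : e ∈ univ) => h1 (p e) (q e)
  have h3 := sum_le_sum fun (a : A) (_ : a ∈ univ) => h1 (t a) (h a)
  rw [sum_add_distrib, sum_add_distrib] at h2 h3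
  linarith

theorem ce_sub (S : Finset E) (x : E → ℝ) (e : E) (U W : Finset V) :
    ce p q S x e (U ∪ W) + ce p q S x e (U ∩ W) ≤ ce p q S x e U + ce p q S x e W := by
  unfold ce
  by_cases h0 : e ∈ S
  · rw [if_pos h0, if_pos h0, if_pos h0, if_pos h0]
    by_cases a : p e ∈ U <;> by_cases b : q e ∈ U <;> by_cases c : p e ∈ W <;>
      by_cases d : q e ∈ W <;> simp [a, b, c, d] <;> linarith
  · rw [if_neg h0, if_neg h0, if_neg h0, if_neg h0]
    by_cases a : p e ∈ U <;> by_cases b : q e ∈ U <;> by_cases c : p e ∈ W <;>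
      by_cases d : q e ∈ W <;> simp [a, b, c, d]

theorem ce_sub_one (S : Finset E) (x : E → ℝ) (e : E) (he : e ∉ S) (U W : Finset V)
    (a : p e ∈ U) (b : q e ∉ U) (c : p e ∉ W) (d : q e ∈ W) :
    ce p q S x e (U ∪ W) + ce p q S x e (U ∩ W) + 1 ≤ ce p q S x e U + ce p q S x e W := by
  unfold ce
  rw [if_neg he, if_neg he, if_neg he, if_neg he]
  simp [a, b, c, d]

theorem eS_sub_one (S : Finset E) (x : E → ℝ) (e : E) (he : e ∉ S) (U W : Finset V)
    (a : p e ∈ U) (b : q e ∉ U) (c : p e ∉ W) (d : q e ∈ W) :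
    eS p q h S x (U ∪ W) + eS p q h S x (U ∩ W) + 1 ≤ eS p q h S x U + eS p q h S x W := by
  unfold eS
  have h1 : ∑ a, ((if h a ∈ U ∪ W then 1 else 0) : ℝ) + ∑ a, (if h a ∈ U ∩ W then 1 else 0) =
      ∑ a, (if h a ∈ U then 1 else 0) + ∑ a, (if h a ∈ W then 1 else 0) := by
    rw [← sum_add_distrib, ← sum_add_distrib]
    refine sum_congr rfl fun a _ => ?_
    by_cases a1 : h a ∈ U <;> by_cases a2 : h a ∈ W <;> simp [a1, a2]
  have h2 : ∑ e, ce p q S x e (U ∪ W) + ∑ e, ce p q S x e (U ∩ W) + 1 ≤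
      ∑ e, ce p q S x e U + ∑ e, ce p q S x e W := by
    rw [← add_sum_erase univ _ (mem_univ e), ← add_sum_erase univ _ (mem_univ e),
      ← add_sum_erase univ (fun e => ce p q S x e U) (mem_univ e),
      ← add_sum_erase univ (fun e => ce p q S x e W) (mem_univ e)]
    have h3 := ce_sub_one p q S x e he U W a b c d
    have h4 : ∑ e ∈ univ.erase e, ce p q S x e (U ∪ W) + ∑ e ∈ univ.erase e, ce p q S x e (U ∩ W) ≤
        ∑ e ∈ univ.erase e, ce p q S x e U + ∑ e ∈ univ.erase e, ce p q S x e W := by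
      rw [← sum_add_distrib, ← sum_add_distrib]
      exact sum_le_sum fun f _ => ce_sub p q S x f U W
    linarith
  linarith

/-- The partial condition. -/
def Ph (lam : ℝ) (S : Finset E) (x : E → ℝ) : Prop := ∀ P : Finset (Finset V), Sb P →
  0 ≤ eS p q h S x (sp P) - ∑ X ∈ P, (ii p q t h X + lam) + lam

theorem ph_pair {lam : ℝ} {S : Finset E} {x : E → ℝ} (hP : Ph p q t h lam S x) {e : E}
    (he : e ∉ S) {P Q : Finset (Finset V)} (hP1 : Sb P) (hQ1 : Sb Q) (a : p e ∈ sp P)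
    (b : q e ∉ sp P) (c : p e ∉ sp Q) (d : q e ∈ sp Q) :
    1 ≤ (eS p q h S x (sp P) - ∑ X ∈ P, (ii p q t h X + lam) + lam) +
      (eS p q h S x (sp Q) - ∑ X ∈ Q, (ii p q t h X + lam) + lam) := by
  obtain ⟨P', Q', hP', hQ', hs, ht, -, hg⟩ := unc (fun X => ii p q t h X + lam) (fun X Y _ => by
    have := ii_super p q t h X Y
    linarith) P Q hP1 hQ1
  have h1 := hP P' hP'
  have h2 := hP Q' hQ'
  rw [hs] at h1
  rw [ht] at h2
  have h3 := eS_sub_one p q h S x e he (sp P) (sp Q) a b c d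
  linarith

theorem eS_insert (S : Finset E) (x : E → ℝ) (e : E) (he : e ∉ S) (c : ℝ) (U : Finset V) :
    eS p q h (insert e S) (Function.update x e c) U = eS p q h S x U -
      (if p e ∈ U ∨ q e ∈ U then 1 else 0) +
      (c * (if q e ∈ U then 1 else 0) + (1 - c) * (if p e ∈ U then 1 else 0)) := by
  unfold eS
  rw [← add_sum_erase univ _ (mem_univ e), ← add_sum_erase univ (fun e => ce p q S x e U)
    (mem_univ e)]
  have h1 : ∑ f ∈ univ.erase e, ce p q (insert e S) (Function.update x e c) f U =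
      ∑ f ∈ univ.erase e, ce p q S x f U := by
    refine sum_congr rfl fun f hf => ?_
    have hne : f ≠ e := (mem_erase.1 hf).1
    unfold ce
    rw [Function.update_of_ne hne]
    have h2 : f ∈ insert e S ↔ f ∈ S := by
      rw [mem_insert]
      exact ⟨fun h => h.resolve_left hne, Or.inr⟩
    simp only [h2]
  have h3 : ce p q (insert e S) (Function.update x e c) e U =
      c * (if q e ∈ U then 1 else 0) + (1 - c) * (if p e ∈ U then 1 else 0) := by
    unfold ce
    rw [if_pos (mem_insert_self e S), Function.update_self]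
  have h4 : ce p q S x e U = if p e ∈ U ∨ q e ∈ U then 1 else 0 := by
    unfold ce
    rw [if_neg he]
  rw [h1, h3, h4]
  ring

variable [Fintype V]

theorem ph_step {lam : ℝ} {S : Finset E} {x : E → ℝ} (hP : Ph p q t h lam S x) {e : E}
    (he : e ∉ S) (hne : p e ≠ q e) :
    ∃ c : ℝ, 0 ≤ c ∧ c ≤ 1 ∧ Ph p q t h lam (insert e S) (Function.update x e c) := by
  classical
  set sl : Finset (Finset V) → ℝ := fun P =>
    eS p q h S x (sp P) - ∑ X ∈ P, (ii p q t h X + lam) + lam with hsl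
  set F := (univ : Finset (Finset (Finset V))).filter
    (fun P => Sb P ∧ p e ∈ sp P ∧ q e ∉ sp P) with hF
  have hF0 : F.Nonempty := by
    refine ⟨{{p e}}, mem_filter.2 ⟨mem_univ _, ⟨?_, ?_⟩, ?_, ?_⟩⟩
    · intro X hX
      rw [mem_singleton.1 hX]
      exact singleton_nonempty _
    · intro X hX Y hY hXY
      rw [mem_singleton.1 hX, mem_singleton.1 hY] at hXY
      exact absurd rfl hXY
    · simp [sp]
    · simp only [sp, singleton_biUnion, id, mem_singleton]
      exact fun h => hne h.symm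
  obtain ⟨P0, hP0, hmin⟩ := exists_min_image F sl hF0
  obtain ⟨-, hP01, hP02, hP03⟩ := mem_filter.1 hP0
  refine ⟨min (sl P0) 1, le_min (hP P0 hP01) zero_le_one, min_le_right _ _, ?_⟩
  intro P hP1
  rw [eS_insert p q h S x e he]
  have h0 := hP P hP1
  by_cases a : p e ∈ sp P <;> by_cases b : q e ∈ sp P
  · simp only [a, b, or_self, if_true]
    linarith
  · simp only [a, b, or_false, if_true, if_false]
    have h1 : sl P0 ≤ sl P := hmin P (mem_filter.2 ⟨mem_univ _, hP1, a, b⟩)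
    have h2 : min (sl P0) 1 ≤ sl P0 := min_le_left _ _
    simp only [hsl] at h1 h2 ⊢
    linarith
  · simp only [a, b, or_true, if_true, if_false]
    have h1 := ph_pair p q t h hP he hP01 hP1 hP02 hP03 a b
    rcases le_total (sl P0) 1 with h2 | h2
    · rw [min_eq_left h2]
      simp only [hsl] at h1 h2 ⊢
      linarith
    · rw [min_eq_right h2]
      linarith
  · simp only [a, b, or_false, if_false]
    linarith

theorem ph_all {lam : ℝ} (hne : ∀ e, p e ≠ q e) (h0 : Ph p q t h lam ∅ (fun _ => 0)) :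
    ∃ x : E → ℝ, (∀ e, 0 ≤ x e ∧ x e ≤ 1) ∧ Ph p q t h lam univ x := by
  suffices h1 : ∀ S : Finset E, ∃ x : E → ℝ, (∀ e, 0 ≤ x e ∧ x e ≤ 1) ∧ Ph p q t h lam S x from
    h1 univ
  intro S
  induction S using Finset.induction_on with
  | empty => exact ⟨fun _ => 0, fun _ => ⟨le_rfl, zero_le_one⟩, h0⟩
  | insert e S he ih =>
    obtain ⟨x, hx, hP⟩ := ih
    obtain ⟨c, hc0, hc1, hc⟩ := ph_step p q t h hP he (hne e)
    refine ⟨Function.update x e c, fun f => ?_, hc⟩
    by_cases hf : f = e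
    · subst hf
      rw [Function.update_self]
      exact ⟨hc0, hc1⟩
    · rw [Function.update_of_ne hf]
      exact hx f

/-- The fractional indegree. -/
def ind (x : E → ℝ) (v : V) : ℝ :=
  ∑ a, (if h a = v then 1 else 0) +
    ∑ e, (x e * (if q e = v then 1 else 0) + (1 - x e) * (if p e = v then 1 else 0))

theorem sum_ind (x : E → ℝ) (X : Finset V) :
    ∑ v ∈ X, ind p q h x v = eS p q h univ x X := by
  unfold ind eS ce
  have h1 : ∀ u : V, ∑ v ∈ X, ((if u = v then 1 else 0) : ℝ) = if u ∈ X then 1 else 0 := by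
    intro u
    rw [sum_ite_eq]
  rw [sum_add_distrib, sum_comm, sum_comm (s := X)]
  refine congrArg₂ (· + ·) (sum_congr rfl fun a _ => h1 (h a)) (sum_congr rfl fun e _ => ?_)
  rw [if_pos (mem_univ e), sum_add_distrib, ← mul_sum, ← mul_sum, h1, h1]

theorem ii_le (x : E → ℝ) (hx : ∀ e, 0 ≤ x e ∧ x e ≤ 1) (X : Finset V) :
    ii p q t h X ≤ ∑ v ∈ X, ind p q h x v := by
  rw [sum_ind]
  unfold ii eS ce
  rw [add_comm]
  refine add_le_add (sum_le_sum fun a _ => ?_) (sum_le_sum fun e _ => ?_)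
  · by_cases a1 : t a ∈ X <;> by_cases a2 : h a ∈ X <;> simp [a1, a2]
  · rw [if_pos (mem_univ e)]
    obtain ⟨h1, h2⟩ := hx e
    by_cases a1 : p e ∈ X <;> by_cases a2 : q e ∈ X <;> simp [a1, a2] <;> linarith

/-- The roots: a minimal covering vector. -/
theorem rho_exists (f : Finset V → ℝ) (lam : ℝ) (hl : 0 ≤ lam) (hf : ∀ X, X.Nonempty → f X ≤ lam)
    (hs : ∀ X Y : Finset V, f X + f Y ≤ f (X ∪ Y) + f (X ∩ Y))
    (hP : ∀ P : Finset (Finset V), Sb P → ∑ X ∈ P, f X ≤ lam) (hV : Nonempty V) :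
    ∃ ρ : V → ℝ, (∀ v, 0 ≤ ρ v) ∧ ∑ v, ρ v = lam ∧ ∀ X : Finset V, X.Nonempty →
      f X ≤ ∑ v ∈ X, ρ v := by
  classical
  set C : Set (V → ℝ) := {ρ | (∀ v, ρ v ∈ Set.Icc 0 lam) ∧
    ∀ X : Finset V, X.Nonempty → f X ≤ ∑ v ∈ X, ρ v} with hC
  have hCc : IsCompact C := by
    have h1 : IsCompact (Set.pi Set.univ (fun _ : V => Set.Icc (0 : ℝ) lam)) :=
      isCompact_univ_pi fun _ => isCompact_Icc
    have h2 : IsClosed {ρ : V → ℝ | ∀ X : Finset V, X.Nonempty → f X ≤ ∑ v ∈ X, ρ v} := by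
      simp only [Set.ofPred_forall]
      refine isClosed_iInter fun X => isClosed_iInter fun _ => ?_
      exact isClosed_le continuous_const (continuous_finsetSum _ fun v _ => continuous_apply v)
    have h3 : C = Set.pi Set.univ (fun _ : V => Set.Icc (0 : ℝ) lam) ∩
        {ρ : V → ℝ | ∀ X : Finset V, X.Nonempty → f X ≤ ∑ v ∈ X, ρ v} := by
      ext ρ
      exact ⟨fun h => ⟨fun v _ => h.1 v, h.2⟩, fun h => ⟨fun v => h.1 v (Set.mem_univ v), h.2⟩⟩
    rw [h3]
    exact h1.inter_right h2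
  have hC0 : C.Nonempty := by
    refine ⟨fun _ => lam, fun _ => ⟨hl, le_rfl⟩, fun X hX => (hf X hX).trans ?_⟩
    obtain ⟨v, hv⟩ := hX
    exact single_le_sum (f := fun _ => lam) (fun _ _ => hl) hv
  obtain ⟨ρ, hρ, hmin⟩ := hCc.exists_isMinOn hC0
    (continuous_finsetSum univ fun v _ => continuous_apply v).continuousOn
  have hρ0 : ∀ v, 0 ≤ ρ v := fun v => (hρ.1 v).1
  -- every vertex of the support is in a tight set
  have htight : ∀ v, 0 < ρ v → ∃ X : Finset V, v ∈ X ∧ f X = ∑ w ∈ X, ρ w := by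
    intro v hv
    by_contra hno
    push Not at hno
    set G := (univ : Finset (Finset V)).filter (fun X => v ∈ X) with hG
    have hG0 : G.Nonempty := ⟨univ, mem_filter.2 ⟨mem_univ _, mem_univ _⟩⟩
    obtain ⟨X0, hX0, hX0m⟩ := exists_min_image G (fun X => ∑ w ∈ X, ρ w - f X) hG0
    have hX0v := (mem_filter.1 hX0).2
    have hpos : 0 < ∑ w ∈ X0, ρ w - f X0 := by
      have h1 := hρ.2 X0 ⟨v, hX0v⟩
      have h2 := hno X0 hX0v
      exact sub_pos.2 (lt_of_le_of_ne h1 h2)
    set ε := min (ρ v) (∑ w ∈ X0, ρ w - f X0) with hε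
    have hε0 : 0 < ε := lt_min hv hpos
    have hsum : ∀ X : Finset V, ∑ w ∈ X, (Function.update ρ v (ρ v - ε)) w =
        ∑ w ∈ X, ρ w - if v ∈ X then ε else 0 := by
      intro X
      split_ifs with hvX
      · rw [sum_update_of_mem hvX, ← add_sum_erase X ρ hvX, sdiff_singleton_eq_erase]
        ring
      · rw [sub_zero]
        refine sum_congr rfl fun w hw => ?_
        rw [Function.update_of_ne]
        rintro rfl
        exact hvX hw
    have hmem : Function.update ρ v (ρ v - ε) ∈ C := by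
      refine ⟨fun w => ?_, fun X hX => ?_⟩
      · by_cases hw : w = v
        · subst hw
          rw [Function.update_self]
          have h1 := (hρ.1 w).2
          have h2 : ε ≤ ρ w := min_le_left _ _
          constructor <;> linarith
        · rw [Function.update_of_ne hw]
          exact hρ.1 w
      · rw [hsum]
        have h1 := hρ.2 X hX
        split_ifs with hvX
        · have h2 : ε ≤ ∑ w ∈ X, ρ w - f X :=
            (min_le_right _ _).trans (hX0m X (mem_filter.2 ⟨mem_univ _, hvX⟩))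
          linarith
        · linarith
    have h5 := hmin hmem
    simp only [Set.mem_ofPred_eq] at h5
    have h6 := hsum univ
    rw [if_pos (mem_univ v)] at h6
    rw [h6] at h5
    linarith
  -- the maximal tight sets
  set Tt := (univ : Finset (Finset V)).filter (fun X => X.Nonempty ∧ f X = ∑ w ∈ X, ρ w) with hTt
  set Pm := Tt.filter (fun X => ∀ Y ∈ Tt, X ⊆ Y → X = Y) with hPm
  have hPmS : Sb Pm := by
    refine ⟨fun X hX => (mem_filter.1 (mem_filter.1 hX).1).2.1, fun X hX Y hY hne => ?_⟩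
    by_contra hnd
    obtain ⟨hXT, hXm⟩ := mem_filter.1 hX
    obtain ⟨hYT, hYm⟩ := mem_filter.1 hY
    have hI : (X ∩ Y).Nonempty := by
      rw [nonempty_iff_ne_empty]
      intro h
      exact hnd (disjoint_iff_inter_eq_empty.2 h)
    have hU : X ∪ Y ∈ Tt := by
      refine mem_filter.2 ⟨mem_univ _, hI.mono (inter_subset_left.trans subset_union_left), ?_⟩
      have h1 := hs X Y
      have h2 := hρ.2 (X ∩ Y) hI
      have h3 := hρ.2 (X ∪ Y) (hI.mono (inter_subset_left.trans subset_union_left))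
      have h4 : ∑ w ∈ X ∪ Y, ρ w + ∑ w ∈ X ∩ Y, ρ w = ∑ w ∈ X, ρ w + ∑ w ∈ Y, ρ w :=
        sum_union_inter
      have h5 := (mem_filter.1 hXT).2.2
      have h6 := (mem_filter.1 hYT).2.2
      linarith
    have h7 := hXm _ hU subset_union_left
    have h8 := hYm _ hU subset_union_right
    exact hne (h7.trans h8.symm)
  have hcov : ∀ v, 0 < ρ v → v ∈ sp Pm := by
    intro v hv
    obtain ⟨X, hvX, hX⟩ := htight v hv
    have hXT : X ∈ Tt.filter (fun Y => v ∈ Y) :=
      mem_filter.2 ⟨mem_filter.2 ⟨mem_univ _, ⟨v, hvX⟩, hX⟩, hvX⟩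
    obtain ⟨M, hM, hMmax⟩ := exists_max_image _ (fun Y : Finset V => Y.card) ⟨X, hXT⟩
    obtain ⟨hMT, hvM⟩ := mem_filter.1 hM
    refine mem_sp.2 ⟨M, mem_filter.2 ⟨hMT, fun Y hY hMY => ?_⟩, hvM⟩
    exact eq_of_subset_of_card_le hMY (hMmax Y (mem_filter.2 ⟨hY, hMY hvM⟩))
  have htot : ∑ v, ρ v ≤ lam := by
    have h1 : ∑ v, ρ v = ∑ v ∈ sp Pm, ρ v := by
      refine (sum_subset (subset_univ _) fun v _ hv => ?_).symm
      by_contra hne
      exact hv (hcov v (lt_of_le_of_ne (hρ0 v) (Ne.symm hne)))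
    rw [h1, hPmS.sum_sp]
    refine (sum_le_sum fun X hX => ?_).trans (hP Pm hPmS)
    exact (mem_filter.1 (mem_filter.1 hX).1).2.2.ge
  obtain ⟨v0⟩ := hV
  refine ⟨Function.update ρ v0 (ρ v0 + (lam - ∑ v, ρ v)), fun v => ?_, ?_, fun X hX => ?_⟩
  · by_cases hv : v = v0
    · subst hv
      rw [Function.update_self]
      have := hρ0 v
      linarith
    · rw [Function.update_of_ne hv]
      exact hρ0 v
  · rw [sum_update_of_mem (mem_univ v0), ← add_sum_erase univ ρ (mem_univ v0),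
      sdiff_singleton_eq_erase]
    ring
  · refine (hρ.2 X hX).trans (sum_le_sum fun v _ => ?_)
    by_cases hv : v = v0
    · subst hv
      rw [Function.update_self]
      linarith
    · rw [Function.update_of_ne hv]

/-- **A1**: fractional orientation and roots. -/
theorem frank_frac (hne : ∀ e, p e ≠ q e) (lam : ℝ) (hl : 0 ≤ lam) (hV : Nonempty V)
    (h0 : ∀ P : Finset (Finset V), Sb P →
      lam * ((P.card : ℝ) - 1) ≤ (∑ a, (if h a ∈ sp P then 1 else 0) +
        ∑ e, (if p e ∈ sp P ∨ q e ∈ sp P then 1 else 0)) - ∑ X ∈ P, ii p q t h X) :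
    ∃ (x : E → ℝ) (ρ : V → ℝ), (∀ e, 0 ≤ x e ∧ x e ≤ 1) ∧ (∀ v, 0 ≤ ρ v) ∧ ∑ v, ρ v = lam ∧
      ∀ X : Finset V, X.Nonempty →
        lam + ii p q t h X ≤ ∑ v ∈ X, (ind p q h x v + ρ v) := by
  have h1 : Ph p q t h lam ∅ (fun _ => 0) := by
    intro P hP
    have h2 := h0 P hP
    have h3 : eS p q h ∅ (fun _ => 0) (sp P) = ∑ a, (if h a ∈ sp P then 1 else 0) +
        ∑ e, (if p e ∈ sp P ∨ q e ∈ sp P then 1 else 0) := by
      unfold eS ce
      simp
    rw [h3, sum_add_distrib, sum_const, nsmul_eq_mul]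
    linarith
  obtain ⟨x, hx, hP⟩ := ph_all p q t h hne h1
  obtain ⟨ρ, hρ0, hρ1, hρ2⟩ := rho_exists (fun X => lam + ii p q t h X - ∑ v ∈ X, ind p q h x v)
    lam hl (fun X _ => by
      have := ii_le p q t h x hx X
      linarith) (fun X Y => by
      have h4 := ii_super p q t h X Y
      have h5 : ∑ v ∈ X ∪ Y, ind p q h x v + ∑ v ∈ X ∩ Y, ind p q h x v =
          ∑ v ∈ X, ind p q h x v + ∑ v ∈ Y, ind p q h x v := sum_union_inter
      linarith) (fun P hPS => by
      have h6 := hP P hPS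
      rw [← sum_ind, hPS.sum_sp] at h6
      rw [sum_sub_distrib]
      have h7 : ∑ X ∈ P, (lam + ii p q t h X) = ∑ X ∈ P, (ii p q t h X + lam) :=
        sum_congr rfl fun X _ => add_comm _ _
      rw [h7]
      linarith) hV
  refine ⟨x, ρ, hx, hρ0, hρ1, fun X hX => ?_⟩
  have h8 := hρ2 X hX
  rw [sum_add_distrib]
  linarith

end

end Pool.Agent.H84.ARB
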