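import Mathlib

/-!
# Mixed arborescences (MP_1cda34), uncrossing of subpartitions
-/

set_option autoImplicit false

open Finset

namespace Pool.Agent.H84.ARB

variable {V : Type*} [DecidableEq V]

/-- Families of pairwise disjoint nonempty sets. -/
def Sb (P : Finset (Finset V)) : Prop :=
  (∀ X ∈ P, X.Nonempty) ∧ ∀ X ∈ P, ∀ Y ∈ P, X ≠ Y → Disjoint X Y

/-- The support of a family. -/
def sp (P : Finset (Finset V)) : Finset V := P.biUnion id

theorem mem_sp {P : Finset (Finset V)} {v : V} : v ∈ sp P ↔ ∃ X ∈ P, v ∈ X := by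
  simp [sp]

theorem sub_sp {P : Finset (Finset V)} {X : Finset V} (h : X ∈ P) : X ⊆ sp P :=
  fun _ hv => mem_sp.2 ⟨X, h, hv⟩

theorem Sb.empty : Sb (∅ : Finset (Finset V)) :=
  ⟨fun X hX => absurd hX (notMem_empty X), fun X hX => absurd hX (notMem_empty X)⟩

theorem Sb.mono {P Q : Finset (Finset V)} (h : Sb P) (hQ : Q ⊆ P) : Sb Q :=
  ⟨fun X hX => h.1 X (hQ hX), fun X hX Y hY => h.2 X (hQ hX) Y (hQ hY)⟩

theorem Sb.sum_sp {M : Type*} [AddCommMonoid M] {P : Finset (Finset V)} (h : Sb P)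
    (f : V → M) : ∑ v ∈ sp P, f v = ∑ X ∈ P, ∑ v ∈ X, f v := by
  unfold sp
  rw [sum_biUnion]
  · rfl
  · intro X hX Y hY hXY
    exact h.2 X hX Y hY hXY

/-- Several members are joined with a set. -/
theorem unc_join (g : Finset V → ℝ)
    (hg : ∀ X Y : Finset V, (X ∩ Y).Nonempty → g X + g Y ≤ g (X ∪ Y) + g (X ∩ Y))
    (Y : Finset V) (M : Finset (Finset V)) (hM : Sb M) (hY : ∀ X ∈ M, (X ∩ Y).Nonempty) :
    g Y + ∑ X ∈ M, g X ≤ g (Y ∪ sp M) + ∑ X ∈ M, g (X ∩ Y) := by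
  induction M using Finset.induction_on with
  | empty => simp [sp]
  | insert X M hX ih =>
    have h1 := ih (hM.mono (subset_insert X M)) (fun Z hZ => hY Z (mem_insert_of_mem hZ))
    have h2 : X ∩ (Y ∪ sp M) = X ∩ Y := by
      ext v
      simp only [mem_inter, mem_union]
      refine ⟨fun h => ⟨h.1, ?_⟩, fun h => ⟨h.1, Or.inl h.2⟩⟩
      rcases h.2 with h3 | h3
      · exact h3
      · obtain ⟨Z, hZ, hv⟩ := mem_sp.1 h3
        have hne : X ≠ Z := fun e => hX (e ▸ hZ)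
        exact absurd hv (disjoint_left.1 (hM.2 X (mem_insert_self X M) Z
          (mem_insert_of_mem hZ) hne) h.1)
    have h3 := hg X (Y ∪ sp M) (by rw [h2]; exact hY X (mem_insert_self X M))
    rw [h2] at h3
    have h4 : Y ∪ sp (insert X M) = X ∪ (Y ∪ sp M) := by
      ext v
      simp only [mem_union, mem_sp, mem_insert, exists_eq_or_imp]
      tauto
    rw [sum_insert hX, sum_insert hX, h4]
    linarith

/-- One set is inserted. -/
theorem unc_one (g : Finset V → ℝ)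
    (hg : ∀ X Y : Finset V, (X ∩ Y).Nonempty → g X + g Y ≤ g (X ∪ Y) + g (X ∩ Y))
    (P : Finset (Finset V)) (hP : Sb P) (Y : Finset V) (hY : Y.Nonempty) :
    ∃ P' Q' : Finset (Finset V), Sb P' ∧ Sb Q' ∧ sp P' = sp P ∪ Y ∧ sp Q' = sp P ∩ Y ∧
      P'.card + Q'.card = P.card + 1 ∧
      ∑ X ∈ P, g X + g Y ≤ ∑ X ∈ P', g X + ∑ X ∈ Q', g X := by
  classical
  set M := P.filter (fun X => (X ∩ Y).Nonempty) with hMd
  set N := P.filter (fun X => ¬ (X ∩ Y).Nonempty) with hNd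
  have hMP : M ⊆ P := filter_subset _ _
  have hNP : N ⊆ P := filter_subset _ _
  have hM : Sb M := hP.mono hMP
  have hN : Sb N := hP.mono hNP
  have hMN : ∀ X ∈ M, ∀ Z ∈ N, Disjoint X Z := by
    intro X hX Z hZ
    refine hP.2 X (hMP hX) Z (hNP hZ) ?_
    rintro rfl
    exact (mem_filter.1 hZ).2 (mem_filter.1 hX).2
  have hNY : ∀ Z ∈ N, Disjoint (Y ∪ sp M) Z := by
    intro Z hZ
    rw [disjoint_union_left]
    constructor
    · rw [disjoint_left]
      intro v hv hv'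
      exact (mem_filter.1 hZ).2 ⟨v, mem_inter.2 ⟨hv', hv⟩⟩
    · rw [disjoint_left]
      intro v hv hv'
      obtain ⟨X, hX, hvX⟩ := mem_sp.1 hv
      exact disjoint_left.1 (hMN X hX Z hZ) hvX hv'
  have hnot : Y ∪ sp M ∉ N := by
    intro h
    obtain ⟨y, hy⟩ := hY
    exact disjoint_left.1 (hNY _ h) (mem_union_left _ hy) (mem_union_left _ hy)
  have hinj : Set.InjOn (fun X : Finset V => X ∩ Y) (M : Set (Finset V)) := by
    intro X hX Z hZ h
    by_contra hne
    obtain ⟨v, hv⟩ := (mem_filter.1 hX).2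
    have h' : X ∩ Y = Z ∩ Y := h
    have hv2 : v ∈ Z ∩ Y := h' ▸ hv
    exact disjoint_left.1 (hM.2 X hX Z hZ hne) (mem_inter.1 hv).1 (mem_inter.1 hv2).1
  refine ⟨insert (Y ∪ sp M) N, M.image (fun X => X ∩ Y), ?_, ?_, ?_, ?_, ?_, ?_⟩
  · refine ⟨?_, ?_⟩
    · intro X hX
      rcases mem_insert.1 hX with rfl | hX
      · exact hY.mono subset_union_left
      · exact hN.1 X hX
    · intro X hX Z hZ hne
      rcases mem_insert.1 hX with rfl | hX <;> rcases mem_insert.1 hZ with rfl | hZ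
      · exact absurd rfl hne
      · exact hNY Z hZ
      · exact (hNY X hX).symm
      · exact hN.2 X hX Z hZ hne
  · refine ⟨?_, ?_⟩
    · intro X hX
      obtain ⟨Z, hZ, rfl⟩ := mem_image.1 hX
      exact (mem_filter.1 hZ).2
    · intro X hX Z hZ hne
      obtain ⟨X', hX', rfl⟩ := mem_image.1 hX
      obtain ⟨Z', hZ', rfl⟩ := mem_image.1 hZ
      have hne' : X' ≠ Z' := by
        rintro rfl
        exact hne rfl
      exact (hM.2 X' hX' Z' hZ' hne').mono inter_subset_left inter_subset_left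
  · ext v
    simp only [mem_sp, mem_insert, exists_eq_or_imp, mem_union]
    constructor
    · rintro ((h | ⟨X, hX, hv⟩) | ⟨X, hX, hv⟩)
      · exact Or.inr h
      · exact Or.inl ⟨X, hMP hX, hv⟩
      · exact Or.inl ⟨X, hNP hX, hv⟩
    · rintro (⟨X, hX, hv⟩ | h)
      · by_cases hc : (X ∩ Y).Nonempty
        · exact Or.inl (Or.inr ⟨X, mem_filter.2 ⟨hX, hc⟩, hv⟩)
        · exact Or.inr ⟨X, mem_filter.2 ⟨hX, hc⟩, hv⟩
      · exact Or.inl (Or.inl h)
  · ext v
    simp only [mem_sp, mem_image, mem_inter]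
    constructor
    · rintro ⟨_, ⟨X, hX, rfl⟩, hv⟩
      exact ⟨⟨X, hMP hX, (mem_inter.1 hv).1⟩, (mem_inter.1 hv).2⟩
    · rintro ⟨⟨X, hX, hv⟩, hvY⟩
      exact ⟨X ∩ Y, ⟨X, mem_filter.2 ⟨hX, ⟨v, mem_inter.2 ⟨hv, hvY⟩⟩⟩, rfl⟩,
        mem_inter.2 ⟨hv, hvY⟩⟩
  · rw [card_insert_of_notMem hnot, card_image_of_injOn hinj]
    have h1 : M.card + N.card = P.card := card_filter_add_card_filter_not _
    omega
  · rw [sum_insert hnot, sum_image (fun X hX Z hZ h => hinj hX hZ h)]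
    have h1 : ∑ X ∈ P, g X = ∑ X ∈ M, g X + ∑ X ∈ N, g X :=
      (sum_filter_add_sum_filter_not P _ g).symm
    have h2 := unc_join g hg Y M hM (fun X hX => (mem_filter.1 hX).2)
    rw [h1]
    linarith

/-- **Uncrossing of two subpartitions.** -/
theorem unc (g : Finset V → ℝ)
    (hg : ∀ X Y : Finset V, (X ∩ Y).Nonempty → g X + g Y ≤ g (X ∪ Y) + g (X ∩ Y))
    (P Q : Finset (Finset V)) (hP : Sb P) (hQ : Sb Q) :
    ∃ P' Q' : Finset (Finset V), Sb P' ∧ Sb Q' ∧ sp P' = sp P ∪ sp Q ∧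
      sp Q' = sp P ∩ sp Q ∧ P'.card + Q'.card = P.card + Q.card ∧
      ∑ X ∈ P, g X + ∑ X ∈ Q, g X ≤ ∑ X ∈ P', g X + ∑ X ∈ Q', g X := by
  classical
  induction Q using Finset.induction_on with
  | empty => exact ⟨P, ∅, hP, Sb.empty, by simp [sp], by simp [sp], rfl, le_rfl⟩
  | insert Y Q hYQ ih =>
    obtain ⟨P1, Q1, hP1, hQ1, hs1, ht1, hc1, hg1⟩ := ih (hQ.mono (subset_insert Y Q))
    obtain ⟨P2, Q2, hP2, hQ2, hs2, ht2, hc2, hg2⟩ :=
      unc_one g hg P1 hP1 Y (hQ.1 Y (mem_insert_self Y Q))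
    have hd : ∀ v ∈ Y, v ∉ sp Q := by
      intro v hv hv'
      obtain ⟨Z, hZ, hvZ⟩ := mem_sp.1 hv'
      have hne : Y ≠ Z := fun e => hYQ (e ▸ hZ)
      exact disjoint_left.1 (hQ.2 Y (mem_insert_self Y Q) Z (mem_insert_of_mem hZ) hne) hv hvZ
    have hd12 : ∀ X ∈ Q1, ∀ Z ∈ Q2, Disjoint X Z := by
      intro X hX Z hZ
      rw [disjoint_left]
      intro v hv hv'
      have h1 : v ∈ sp P ∩ sp Q := ht1 ▸ sub_sp hX hv
      have h2 : v ∈ sp P1 ∩ Y := ht2 ▸ sub_sp hZ hv'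
      exact hd v (mem_inter.1 h2).2 (mem_inter.1 h1).2
    have hdis : Disjoint Q1 Q2 := by
      rw [disjoint_left]
      intro X hX hX'
      obtain ⟨v, hv⟩ := hQ1.1 X hX
      exact disjoint_left.1 (hd12 X hX X hX') hv hv
    refine ⟨P2, Q1 ∪ Q2, hP2, ?_, ?_, ?_, ?_, ?_⟩
    · refine ⟨?_, ?_⟩
      · intro X hX
        rcases mem_union.1 hX with hX | hX
        · exact hQ1.1 X hX
        · exact hQ2.1 X hX
      · intro X hX Z hZ hne
        rcases mem_union.1 hX with hX | hX <;> rcases mem_union.1 hZ with hZ | hZ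
        · exact hQ1.2 X hX Z hZ hne
        · exact hd12 X hX Z hZ
        · exact (hd12 Z hZ X hX).symm
        · exact hQ2.2 X hX Z hZ hne
    · rw [hs2, hs1]
      ext v
      simp only [mem_union, mem_sp, mem_insert, exists_eq_or_imp]
      constructor
      · rintro ((h | h) | h)
        · exact Or.inl h
        · exact Or.inr (Or.inr h)
        · exact Or.inr (Or.inl h)
      · rintro (h | h | h)
        · exact Or.inl (Or.inl h)
        · exact Or.inr h
        · exact Or.inl (Or.inr h)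
    · have h5 : sp (Q1 ∪ Q2) = sp Q1 ∪ sp Q2 := by
        ext v
        simp only [mem_sp, mem_union]
        constructor
        · rintro ⟨X, hX | hX, hv⟩
          · exact Or.inl ⟨X, hX, hv⟩
          · exact Or.inr ⟨X, hX, hv⟩
        · rintro (⟨X, hX, hv⟩ | ⟨X, hX, hv⟩)
          · exact ⟨X, Or.inl hX, hv⟩
          · exact ⟨X, Or.inr hX, hv⟩
      rw [h5, ht1, ht2, hs1]
      ext v
      simp only [mem_union, mem_inter, mem_sp, mem_insert, exists_eq_or_imp]
      constructor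
      · rintro (⟨h1, h2⟩ | ⟨h1 | h1, h2⟩)
        · exact ⟨h1, Or.inr h2⟩
        · exact ⟨h1, Or.inl h2⟩
        · exact absurd (mem_sp.2 h1) (hd v h2)
      · rintro ⟨h1, h2 | h2⟩
        · exact Or.inr ⟨Or.inl h1, h2⟩
        · exact Or.inl ⟨h1, h2⟩
    · rw [card_union_of_disjoint hdis, card_insert_of_notMem hYQ]
      omega
    · rw [sum_insert hYQ, sum_union hdis]
      linarith

end Pool.Agent.H84.ARB
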